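import Pool.Agent.NG.Main

/-!
# Analytic maps from `G_m` to surfaces of general type with two independent one-forms

`K` is an algebraically closed field of characteristic zero, complete with respect to a
non-archimedean absolute value. Let `X ⊆ P^N` be a smooth projective surface over `K` whose canonical divisor is big
and which carries two linearly independent closed regular one-forms. Then every analytic map from
the multiplicative group to `X` is constant or its image lies in a curve on `X` of
geometric genus at most one. In particular, if `X` is groupless, every analytic map from the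
multiplicative group to `X` is constant.
-/

open scoped KaehlerDifferential

namespace Pool.Agent.Results.MP_973f8c_ag.TwoFormSurfaces

open Pool.Agent.NG

universe u v

theorem result {K : Type u} [NontriviallyNormedField K] [IsUltrametricDist K]
    [CompleteSpace K] [IsAlgClosed K] [CharZero K] {L : Type v} [Field L] [Algebra K L] {N : ℕ}
    {x : Fin (N + 1) → L} (hx : IsSmoothSurface K x) (hK : CanonicalBig K x)
    (hω : HasTwoForms K x) {f : Fin (N + 1) → Kˣ → K} (hf : IsAnalyticMap K x f) :
    (∀ z w i j, f i z * f j w = f j z * f i w) ∨
      ∃ (F : Type u) (_ : Field F) (_ : Algebra K F) (y : Fin (N + 1) → F),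
        IsCurveOfGenusLEOne K y ∧
        (∀ G, Rel K x G → MvPolynomial.aeval y G = 0) ∧
        ∀ G, Rel K y G → ∀ z, MvPolynomial.eval (fun i => f i z) G = 0 := by
  obtain ⟨ω, h, hli⟩ := hω
  have hω : ω = ![ω 0, ω 1] := by
    funext j
    fin_cases j <;> rfl
  rw [hω] at hli
  exact main_theorem hx hK (h 0).1 (h 1).1 (h 0).2 (h 1).2 hli hf

end Pool.Agent.Results.MP_973f8c_ag.TwoFormSurfaces
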